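import Mathlib
import Pool.Agent.W235.GG.Special

/-!
Complements of hypersurface sections in weighted projective complete intersections, with arbitrary
singularities and in families over affine bases, of nonpositive log canonical degree: nonconstant
morphisms from the multiplicative group, entire curves and maps from the punctured disc with an
essential singularity pass through every point, so none of the hyperbolicity properties holds.
-/

set_option autoImplicit false

namespace Pool.Agent.Results.MP_64ff02_ag.GmCurvesEverywhere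

open MvPolynomial Pool.Agent.W235.GG

theorem result {n r : ℕ} (w : Fin n → ℕ) (d : Fin r → ℕ) (δ : ℕ) (hδ : 1 ≤ δ)
    (hle : ∑ j, d j + δ ≤ ∑ i, w i)
    (hne : ∃ v, 1 ≤ v ∧ (Finset.univ.filter fun i => w i = v).card ≠
      (Finset.univ.filter fun j => d j = v).card + if δ = v then 1 else 0)
    (G : Fin r → MvPolynomial (Fin n) ℂ) (hG : ∀ j, IsWeightedHomogeneous w (G j) (d j))
    (B : MvPolynomial (Fin n) ℂ) (hB : IsWeightedHomogeneous w B δ) :
    (∀ x ∈ Cone G B,
      (∃ v, TorusMap w G B v ∧ Same w x (v 1) ∧ ∀ i, w i = 0 → ∀ t, v t i = x i) ∧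
      (∃ f, EntireCurve w G B f ∧ Same w x (f 0) ∧ ∀ i, w i = 0 → ∀ z, f z i = x i) ∧
      (∃ f, EssentialMap w G B δ f ∧ (∃ z ∈ disc, Same w x (f z)) ∧
        ∀ i, w i = 0 → ∀ z, f z i = x i)) ∧
    ¬ PseudoTorus w G B ∧ ¬ PseudoBrody w G B ∧ ¬ PseudoPicard w G B δ :=
  ⟨fun _ hx => curves hG hB hδ hle hne hx,
    (not_pseudo hG hB hδ hle hne).2.2, (not_pseudo hG hB hδ hle hne).1,
    (not_pseudo hG hB hδ hle hne).2.1⟩

end Pool.Agent.Results.MP_64ff02_ag.GmCurvesEverywhere
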