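import Pool.Agent.W601.PH.Quasi

/-!
Big Picard theorem for quasi-projective varieties with a generically finite morphism to a projective
space of any dimension (onto the image), which omits or is ramified over sufficiently many
hyperplanes in general position, with any multiplicities, for instance multiplicity two.
-/

set_option autoImplicit false

namespace Pool.Agent.Results.MP_64ff02_ag.HyperplaneBigPicard

open Pool.Agent.W601.SM Pool.Agent.W601.PH Pool.Agent.W603.BP MvPolynomial Metric

/-- Let `n ≥ 1`.

(1) Let `ℓ i = 0` be `q` hyperplanes in projective `n`-space which, as points of the dual space,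
impose independent conditions on the forms of degree `k`, and let `w i` be weights between `0` and
`1` with `2 * C(n + k - 1, n - 1) < ∑ i, w i`. Let `X - D` be any quasi-projective variety with a
morphism to projective `n`-space which extends to the projective compactification `X` and which is
ramified over the hyperplanes with the weights `w i`. Then every holomorphic map from the punctured
disc to `X - D` is mapped into one of the hyperplanes, or its image in projective `n`-space extends
holomorphically to the disc. If moreover `X` is irreducible, `D ≠ X`, the morphism is generically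
finite onto its image and the image is not contained in one of the hyperplanes, then `X - D` is
pseudo-Picard hyperbolic and pseudo-Brody hyperbolic.

(2) If `0 < s`, `2 * n ≤ K * s` and `q > C(n + K, n)`, there is a `k` with
`2 * C(n + k - 1, n - 1) < q * s` such that all `q`-tuples of hyperplanes outside a proper Zariski
closed set impose independent conditions on the forms of degree `k`. -/
theorem result (n : ℕ) (hn : 1 ≤ n) :
    (∀ (k q : ℕ) (ℓ : Fin q → Fin (n + 1) → ℂ) (w : Fin q → ℝ), Ind k ℓ →
      (∀ i, 0 ≤ w i ∧ w i ≤ 1) →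
      2 * (((n + k - 1).choose (n - 1) : ℕ) : ℝ) < ∑ i, w i →
      ∀ (N : ℕ) (X D : BiSet N n), QRamified X D ℓ w →
        (∀ u v, QDisc X D u v →
          (∃ i, ∀ z ∈ ball (0 : ℂ) 1 \ {0}, ∑ j, ℓ i j * v z j = 0) ∨ Extends v) ∧
        (X.Irred → X.GenFinite → (∃ u v, QMem X D u v) →
          (∀ i, ∃ u v, X.Mem u v ∧ ∑ j, ℓ i j * v j ≠ 0) → QPicard X D ∧ QBrody X D)) ∧
    (∀ (s : ℝ) (K q : ℕ), 0 < s → 2 * n ≤ K * s → (n + K).choose n < q → ∃ k : ℕ,
      2 * (((n + k - 1).choose (n - 1) : ℕ) : ℝ) < q * s ∧
      ∃ Ψ : MvPolynomial (Fin q × Fin (n + 1)) ℂ, Ψ ≠ 0 ∧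
        ∀ ℓ : Fin q → Fin (n + 1) → ℂ, eval (fun x => ℓ x.1 x.2) Ψ ≠ 0 → Ind k ℓ) := by
  refine ⟨fun k q ℓ w hI hw hq N X D hX => ?_, fun s K q hs hK hq => ?_⟩
  · obtain ⟨h1, h2⟩ := picard_main hn hI hw hq X D hX
    exact ⟨h1, fun a b c d => ⟨h2 a b c d, (h2 a b c d).brody⟩⟩
  · obtain ⟨k, h1, h2⟩ := numbers2 n hn s hs K q hK hq
    exact ⟨k, h2, generic h1⟩

end Pool.Agent.Results.MP_64ff02_ag.HyperplaneBigPicard
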