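import Pool.Agent.W600.Ell.GGL

/-!
# Multi-cyclic covers of complete intersections with `K + D ≤ 0`

`X` is the quasi-projective variety in the weighted projective space `P(1, …, 1, e 1, …, e r)` with
the equations `G j (x) = 0`, `w i ^ m i = F i (x)` and the condition `B (x) ≠ 0`: the complement of
the hypersurface section `B = 0` in a multi-cyclic cover of a complete intersection (any
singularities are allowed, for the base, the branch divisors and the boundary). Its log canonical
divisor is `O(∑ (m i - 1) e i + δ + ∑ d j - n - 1)`. If this degree is `≤ 0` (and, in the extreme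
cases, if suitable `m i` are even or divisible by `3` or `4`) then all the hyperbolicity properties
(ii), (iii), (iv) of the problem fail: entire curves which are contained in the preimages of
lines of `P^n` are not contained in any proper closed subset of `X`. For a line with the right
multiplicities the preimage is dominated by the affine line, by `ℂ \ {0}` or by an elliptic curve,
which is uniformised by the Poincaré function of its duplication map.
-/

set_option autoImplicit false

namespace Pool.Agent.Results.MP_64ff02_ag.LogCalabiYauCovers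

open MvPolynomial Pool.Agent.W600.Ell

theorem result {n r g : ℕ} {m : Fin r → ℕ} (hm : ∀ i, 2 ≤ m i)
    {F : Fin r → MvPolynomial (Fin (n + 1)) ℂ} {e : Fin r → ℕ} (he : ∀ i, 0 < e i)
    (hF : ∀ i, (F i).IsHomogeneous (m i * e i))
    {G : Fin g → MvPolynomial (Fin (n + 1)) ℂ} {d : Fin g → ℕ} (hG : ∀ i, (G i).IsHomogeneous (d i))
    {B : MvPolynomial (Fin (n + 1)) ℂ} {δ : ℕ} (hB : B.IsHomogeneous δ)
    (hK : ∑ i, (m i - 1) * e i + δ + ∑ j, d j ≤ n + 1)
    (h0 : δ = 0 → ∑ i, (m i - 1) * e i + ∑ j, d j = n + 1 →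
      (∃ i, 3 ∣ m i ∨ 4 ∣ m i) ∨ 2 ≤ ∑ i with 2 ∣ m i, e i)
    (h0' : δ = 0 → ∑ i, (m i - 1) * e i + ∑ j, d j = n → 0 < r)
    (h1 : δ = 1 → ∑ i, (m i - 1) * e i + ∑ j, d j = n → ∃ i, 2 ∣ m i)
    (hirr : Irr e (Pts m F G B)) (hFX : ∀ i, ∃ P ∈ Pts m F G B, eval P.1 (F i) ≠ 0) :
    ¬ PseudoBrody e (Pts m F G B) ∧ ¬ PseudoPicard e (Pts m F G B) (Pts m F G 1) ∧
      ¬ PseudoLine e (Pts m F G B) :=
  main hm he hF hG hB hK h0 h0' h1 hirr hFX

end Pool.Agent.Results.MP_64ff02_ag.LogCalabiYauCovers
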