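import Mathlib
import Pool.Agent.W603.GR.Fin

/-!
MP_64ff02_ag, Q1: the four properties for quasi-projective varieties with a rigid system of
generalised unit equations.
-/

set_option autoImplicit false

namespace Pool.Agent.Results.MP_64ff02_ag.RigidFourProperties

open MvPolynomial Metric Pool.Agent.W603.PV Pool.Agent.W603.BP Pool.Agent.W603.BPR
  Pool.Agent.W603.GR

/-- A quasi-projective variety `X` with a rigid system of generalised unit equations is pseudo
Picard hyperbolic and pseudo Brody hyperbolic. If the exponents are large, then `X` is also of log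
general type and strongly of log general type, with a common exceptional hypersurface `G = 0`. -/
theorem result {n : ℕ} (p : Ideal (MvPolynomial (Fin (n + 1)) ℂ)) [p.IsPrime] (hp : IsHomog p)
    (Q : MvPolynomial (Fin (n + 1)) ℂ) (q : ℕ) (hQ : Q.IsHomogeneous q) {I : Type} [Finite I]
    {s : I → ℕ} (E : EqSys p Q q s) (hE : E.Rigid) :
    PseudoPicard p Q ∧
    ∀ S : ℕ, (∀ i, s i ≤ S) → (∀ i, n * ((S + 1) * ((S - 1) * (S - 2) / 2)) ≤ E.N i) →
      LogGT p Q q ∧
      ∃ G : MvPolynomial (Fin (n + 1)) ℂ, (∃ d, G.IsHomogeneous d) ∧ G ∉ p ∧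
        (∀ f, PCurve p Q f → (∃ z ∈ ball (0 : ℂ) 1 \ {0}, eval (f z) G ≠ 0) → Extends f) ∧
        (∀ f, EntireCurve p Q f → ∀ z, eval (f z) G = 0) ∧ SubLogGT p Q q G := by
  refine ⟨rigid_picard hp hQ E hE, fun S hS hN => rigid_four hp hQ E hE hS fun i => ?_⟩
  have h : Pool.Agent.W602.GT.tn (S - 1) = (S - 1) * (S - 2) / 2 := by
    unfold Pool.Agent.W602.GT.tn
    rw [Fin.sum_univ_eq_sum_range (fun i => i), Finset.sum_range_id, Nat.sub_sub]
  rw [h]
  exact hN i

end Pool.Agent.Results.MP_64ff02_ag.RigidFourProperties
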